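import Pool.Agent.W710.DP.Stm1

/-! The staircase translation. -/

set_option autoImplicit false

namespace Pool.Agent.W923.DP

open Pool.Agent.W710.DP

/-- climbs from `0` to `1` on `[0,1]`, flat on `[1,n]`, `φ (u + n) = φ u + 1` -/
noncomputable def phi (n : ℝ) (u : ℝ) : ℝ := (⌊u / n⌋ : ℝ) + min 1 (u - n * ⌊u / n⌋)

lemma phi_add (n : ℝ) (hn : 0 < n) (k : ℤ) (a : ℝ) (h0 : 0 ≤ a) (h1 : a < n) :
    phi n (n * k + a) = k + min 1 a := by
  have hf : ⌊(n * k + a) / n⌋ = k := by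
    rw [Int.floor_eq_iff]
    constructor
    · rw [le_div_iff₀ hn]; nlinarith
    · rw [div_lt_iff₀ hn]; nlinarith
  unfold phi
  rw [hf]
  congr 2
  ring

lemma phi_dec (n : ℝ) (hn : 0 < n) (u : ℝ) : ∃ k : ℤ, ∃ a : ℝ, 0 ≤ a ∧ a < n ∧ u = n * k + a := by
  refine ⟨⌊u / n⌋, u - n * ⌊u / n⌋, ?_, ?_, by ring⟩
  · have h := Int.floor_le (u / n)
    rw [le_div_iff₀ hn] at h
    nlinarith
  · have h := Int.lt_floor_add_one (u / n)
    rw [div_lt_iff₀ hn] at h
    nlinarith

lemma phi_lip_aux (n : ℝ) (hn : 1 ≤ n) (u u' : ℝ) (h : u ≤ u') :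
    phi n u ≤ phi n u' ∧ phi n u' - phi n u ≤ u' - u := by
  have hn0 : 0 < n := by linarith
  obtain ⟨k, a, ha0, ha1, rfl⟩ := phi_dec n hn0 u
  obtain ⟨k', a', ha0', ha1', rfl⟩ := phi_dec n hn0 u'
  rw [phi_add n hn0 k a ha0 ha1, phi_add n hn0 k' a' ha0' ha1']
  have m1 : min 1 a ≤ 1 := min_le_left _ _
  have m2 : min 1 a ≤ a := min_le_right _ _
  have m3 : min 1 a' ≤ 1 := min_le_left _ _
  have m4 : min 1 a' ≤ a' := min_le_right _ _
  have m5 : 0 ≤ min 1 a := le_min zero_le_one ha0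
  have m6 : 0 ≤ min 1 a' := le_min zero_le_one ha0'
  have m7 : a - min 1 a ≤ n - 1 := by
    rcases le_total 1 a with h1 | h1
    · rw [min_eq_left h1]; linarith
    · rw [min_eq_right h1]; linarith
  rcases lt_trichotomy k k' with hk | hk | hk
  · have hk' : (k : ℝ) + 1 ≤ k' := by exact_mod_cast hk
    constructor
    · linarith
    · nlinarith
  · subst hk
    have haa : a ≤ a' := by linarith
    have m8 : min 1 a ≤ min 1 a' := min_le_min le_rfl haa
    have m9 : min 1 a' - min 1 a ≤ a' - a := by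
      rcases le_total 1 a with h1 | h1
      · rw [min_eq_left h1]; linarith
      · rw [min_eq_right h1]; linarith
    constructor <;> linarith
  · exfalso
    have hk' : (k' : ℝ) + 1 ≤ k := by exact_mod_cast hk
    nlinarith

lemma phi_lip (n : ℝ) (hn : 1 ≤ n) (u u' : ℝ) : |phi n u - phi n u'| ≤ |u - u'| := by
  rcases le_total u u' with h | h
  · obtain ⟨h1, h2⟩ := phi_lip_aux n hn u u' h
    rw [abs_sub_comm, abs_of_nonneg (by linarith), abs_sub_comm, abs_of_nonneg (by linarith)]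
    exact h2
  · obtain ⟨h1, h2⟩ := phi_lip_aux n hn u' u h
    rw [abs_of_nonneg (by linarith), abs_of_nonneg (by linarith)]
    exact h2

lemma per_int {T e : ℝ} {l : Letter} (hl : Good T e l) (x s : ℝ) (c : ℤ) :
    l.G (x + c) s = l.G x s := by
  have hp : Function.Periodic (fun y => l.G y s) 1 := fun y => hl.per y s
  have := hp.int_mul c x
  simpa using this

/-- (a) constant integer shift -/
lemma sw_const {T e b : ℝ} (c : ℤ) : ∀ (w : List Letter), GoodW T e w → ∀ (ζ : Cfg) (δ : ℕ → ℝ),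
    (∀ i ≤ w.length, δ i = c) → Sw b w (fun i => ζ.1 i + δ i, ζ.2) = Sw b w ζ := by
  intro w
  induction w with
  | nil => intro _ ζ δ _; rfl
  | cons l w ih =>
    intro hw ζ δ hδ
    have hl : Good T e l := hw l (by simp)
    have hw' : GoodW T e w := fun l' hl' => hw l' (by simp [hl'])
    have h0 : δ 0 = c := hδ 0 (by simp)
    have h1 : δ 1 = c := hδ 1 (by simp)
    have hr := ih hw' (shc 1 ζ) (fun i => δ (i + 1)) (fun i hi => hδ (i + 1) (by simpa using hi))
    have hs : shc 1 (fun i => ζ.1 i + δ i, ζ.2) =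
        (fun i => (shc 1 ζ).1 i + δ (i + 1), (shc 1 ζ).2) := rfl
    simp only [Sw]
    rw [hs, hr, h0, h1, per_int hl]
    ring

/-- (b) only the first coordinate is shifted by a non integer -/
lemma sw_first {T e b : ℝ} (hb : 0 ≤ b) (c : ℤ) (f : ℝ) (hf0 : 0 ≤ f) (w : List Letter)
    (hw : GoodW T e w) (ζ : Cfg) (hζ : Om T w.length ζ) (δ : ℕ → ℝ) (h0 : δ 0 = c + f)
    (hδ : ∀ i, 1 ≤ i → i ≤ w.length → δ i = c) :
    Sw b w (fun i => ζ.1 i + δ i, ζ.2) ≤ Sw b w ζ + b * f + 1 / 2 := by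
  cases w with
  | nil => simp only [Sw]; positivity
  | cons l w =>
    have hl : Good T e l := hw l (by simp)
    have hw' : GoodW T e w := fun l' hl' => hw l' (by simp [hl'])
    have h1 : δ 1 = c := hδ 1 le_rfl (by simp)
    have hr := sw_const (b := b) c w hw' (shc 1 ζ) (fun i => δ (i + 1))
      (fun i hi => hδ (i + 1) (by omega) (by simpa using hi))
    have hs : shc 1 (fun i => ζ.1 i + δ i, ζ.2) =
        (fun i => (shc 1 ζ).1 i + δ (i + 1), (shc 1 ζ).2) := rfl
    have hS := hζ 0 (by simp)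
    have g1 := abs_le.1 (hl.small (ζ.1 0 + δ 0) (ζ.2 0)).1
    have g2 := abs_le.1 (hl.small (ζ.1 0) (ζ.2 0)).1
    simp only [Sw]
    rw [hs, hr, h1]
    rw [h0] at g1 ⊢
    nlinarith [mul_nonneg hS.1 hf0]

/-- (c) staircase shift -/
lemma sw_stair {T e b : ℝ} (hb : 0 ≤ b) (c : ℤ) (f : ℝ) (hf0 : 0 ≤ f) (hf1 : f ≤ 1) :
    ∀ (w : List Letter), GoodW T e w → ∀ (ζ : Cfg), Om T w.length ζ → ∀ (m : ℕ) (δ : ℕ → ℝ),
    (∀ i, i < m → i ≤ w.length → δ i = c + 1) → (m ≤ w.length → δ m = c + f) →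
    (∀ i, m < i → i ≤ w.length → δ i = c) →
    Sw b w (fun i => ζ.1 i + δ i, ζ.2) ≤ Sw b w ζ + b + 1 := by
  intro w
  induction w with
  | nil => intro _ ζ _ m δ _ _ _; simp only [Sw]; linarith
  | cons l w ih =>
    intro hw ζ hζ m δ h1 h2 h3
    have hl : Good T e l := hw l (by simp)
    have hw' : GoodW T e w := fun l' hl' => hw l' (by simp [hl'])
    have hS := hζ 0 (by simp)
    have hζ' : Om T w.length (shc 1 ζ) := fun i hi => hζ (i + 1) (by simpa using hi)
    have hs : shc 1 (fun i => ζ.1 i + δ i, ζ.2) =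
        (fun i => (shc 1 ζ).1 i + δ (i + 1), (shc 1 ζ).2) := rfl
    rcases Nat.lt_or_ge m 2 with hm | hm
    · interval_cases m
      · have := sw_first (T := T) (e := e) hb c f hf0 (l :: w) hw ζ hζ δ (h2 (by simp))
          (fun i hi hi' => h3 i hi hi')
        nlinarith
      · have hr := sw_first (T := T) (e := e) hb c f hf0 w hw' (shc 1 ζ) hζ'
          (fun i => δ (i + 1)) (h2 (by simp))
          (fun i hi hi' => h3 (i + 1) (by omega) (by simpa using hi'))
        have e0 : δ 0 = c + 1 := h1 0 (by omega) (by simp)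
        have e1 : δ 1 = c + f := h2 (by simp)
        have hp : l.G (ζ.1 0 + (c + 1)) (ζ.2 0) = l.G (ζ.1 0) (ζ.2 0) := by
          have := per_int hl (ζ.1 0) (ζ.2 0) (c + 1)
          push_cast at this
          exact this
        simp only [Sw]
        rw [hs, e0, e1, hp]
        nlinarith [mul_nonneg hS.1 (sub_nonneg.2 hf1)]
    · have hr := ih hw' (shc 1 ζ) hζ' (m - 1) (fun i => δ (i + 1))
        (fun i hi hi' => h1 (i + 1) (by omega) (by simpa using hi'))
        (fun hi => by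
          have := h2 (by simp only [List.length_cons]; omega)
          have e : m - 1 + 1 = m := by omega
          show δ (m - 1 + 1) = c + f
          rw [e]; exact this)
        (fun i hi hi' => h3 (i + 1) (by omega) (by simpa using hi'))
      have e0 : δ 0 = c + 1 := h1 0 (by omega) (by simp)
      have e1 : δ 1 = c + 1 := h1 1 (by omega) (by simp)
      have hp : l.G (ζ.1 0 + (c + 1)) (ζ.2 0) = l.G (ζ.1 0) (ζ.2 0) := by
        have := per_int hl (ζ.1 0) (ζ.2 0) (c + 1)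
        push_cast at this
        exact this
      simp only [Sw]
      rw [hs, e0, e1, hp]
      linarith

theorem t_stair : S_stair := by
  intro N
  have hn : (1 : ℝ) ≤ (N : ℝ) + 1 := by
    have : (0 : ℝ) ≤ N := Nat.cast_nonneg N
    linarith
  have hn0 : (0 : ℝ) < (N : ℝ) + 1 := by linarith
  refine ⟨fun r j => phi ((N : ℝ) + 1) (r - j), ?_, ?_, ?_, ?_⟩
  · intro r r' j
    refine (phi_lip _ hn _ _).trans (le_of_eq ?_)
    congr 1; ring
  · intro r j _
    refine (phi_lip _ hn _ _).trans (le_of_eq ?_)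
    push_cast
    rw [show r - ((j : ℝ) + 1) - (r - j) = -1 by ring]
    simp
  · intro r
    obtain ⟨k, a, ha0, ha1, rfl⟩ := phi_dec _ hn0 r
    simp only [Nat.cast_zero, sub_zero]
    rw [phi_add _ hn0 k a ha0 ha1]
    have h1 : ((N + 1 : ℝ) * k + a) / (N + 1) = k + a / (N + 1) := by
      field_simp
    rw [h1]
    have h2 : 0 ≤ a / ((N : ℝ) + 1) := by positivity
    have h3 : a / ((N : ℝ) + 1) ≤ 1 := by
      rw [div_le_one hn0]; exact ha1.le
    have m1 : min 1 a ≤ 1 := min_le_left _ _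
    have m5 : 0 ≤ min 1 a := le_min zero_le_one ha0
    rw [abs_le]
    constructor <;> linarith
  · intro b T e w hp hw hwN r ζ hζ
    have hb : 0 ≤ b := by
      obtain ⟨h1, h2, h3⟩ := hp
      linarith
    obtain ⟨k, a, ha0, ha1, rfl⟩ := phi_dec _ hn0 r
    have hfl := Nat.floor_le ha0
    have hfu := Nat.lt_floor_add_one a
    have hmN : ⌊a⌋₊ ≤ N := by
      have : (⌊a⌋₊ : ℝ) < N + 1 := lt_of_le_of_lt hfl ha1
      have h2 : ⌊a⌋₊ < N + 1 := by exact_mod_cast this
      omega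
    refine sw_stair (T := T) (e := e) hb k (a - ⌊a⌋₊) (by linarith) (by linarith) w hw ζ
      (by rw [hwN]; exact hζ) ⌊a⌋₊ _ ?_ ?_ ?_
    · intro i hi _
      have hi' : (i : ℝ) + 1 ≤ ⌊a⌋₊ := by exact_mod_cast hi
      have hi0 : (0 : ℝ) ≤ i := Nat.cast_nonneg i
      show phi ((N : ℝ) + 1) (((N : ℝ) + 1) * k + a - i) = k + 1
      rw [show ((N : ℝ) + 1) * k + a - i = ((N : ℝ) + 1) * k + (a - i) by ring,
        phi_add _ hn0 k (a - i) (by linarith) (by linarith), min_eq_left (by linarith)]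
    · intro _
      have hi0 : (0 : ℝ) ≤ (⌊a⌋₊ : ℝ) := Nat.cast_nonneg _
      show phi ((N : ℝ) + 1) (((N : ℝ) + 1) * k + a - (⌊a⌋₊ : ℝ)) = k + (a - ⌊a⌋₊)
      rw [show ((N : ℝ) + 1) * k + a - (⌊a⌋₊ : ℝ) = ((N : ℝ) + 1) * k + (a - (⌊a⌋₊ : ℝ)) by ring,
        phi_add _ hn0 k _ (by linarith) (by linarith), min_eq_right (by linarith)]
    · intro i hi hiw
      rw [hwN] at hiw
      have hi' : (⌊a⌋₊ : ℝ) + 1 ≤ i := by exact_mod_cast hi
      have hiN : (i : ℝ) ≤ N := by exact_mod_cast hiw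
      show phi ((N : ℝ) + 1) (((N : ℝ) + 1) * k + a - i) = k
      have hc : ((N : ℝ) + 1) * k + a - i =
          ((N : ℝ) + 1) * ((k - 1 : ℤ) : ℝ) + (a - i + (N + 1)) := by
        push_cast; ring
      rw [hc, phi_add _ hn0 (k - 1) _ (by linarith) (by linarith), min_eq_left (by linarith)]
      push_cast; ring

end Pool.Agent.W923.DP
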